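import Mathlib

set_option autoImplicit false

/-!
# MP_090ff9_an: average shadowing, full measure center and positive entropy

We prove that a compact dynamical system with full measure center and with the average shadowing
property, the asymptotic average shadowing property or the almost specification property has
positive topological entropy as soon as the space has at least two points.
-/

namespace Pool.Agent.Results.MP_090ff9_an.PositiveEntropy

open Finset Filter Topology MeasureTheory

/-! ## Definitions -/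

section Definitions

variable {X : Type*} [MetricSpace X]

/-- The measure center of `f`: the complement of the union of all open sets which are null for
every invariant Borel probability measure. -/
def measureCenter [MeasurableSpace X] (f : X → X) : Set X :=
  (⋃₀ {U : Set X | IsOpen U ∧ ∀ μ : Measure X, IsProbabilityMeasure μ →
    MeasurePreserving f μ μ → μ U = 0})ᶜ

/-- `x` is a `δ`-average-pseudo-orbit of `f`. -/
def IsAveragePseudoOrbit (f : X → X) (δ : ℝ) (x : ℕ → X) : Prop :=
  ∃ N : ℕ, 0 < N ∧ ∀ n ≥ N, ∀ k : ℕ,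
    (1 / (n : ℝ)) * ∑ i ∈ range n, dist (f (x (i + k))) (x (i + k + 1)) < δ

/-- `x` is `ε`-shadowed in average by `y`. -/
def ShadowedInAverage (f : X → X) (ε : ℝ) (x : ℕ → X) (y : X) : Prop :=
  limsup (fun n : ℕ => (1 / (n : ℝ)) * ∑ i ∈ range n, dist (f^[i] y) (x i)) atTop < ε

/-- The average shadowing property. -/
def AverageShadowing (f : X → X) : Prop :=
  ∀ ε : ℝ, 0 < ε → ∃ δ : ℝ, 0 < δ ∧ ∀ x : ℕ → X, IsAveragePseudoOrbit f δ x →
    ∃ y : X, ShadowedInAverage f ε x y

/-- The asymptotic average shadowing property. -/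
def AsymptoticAverageShadowing (f : X → X) : Prop :=
  ∀ x : ℕ → X,
    Tendsto (fun n : ℕ => (1 / (n : ℝ)) * ∑ i ∈ range n, dist (f (x i)) (x (i + 1))) atTop (𝓝 0) →
    ∃ y : X,
      Tendsto (fun n : ℕ => (1 / (n : ℝ)) * ∑ i ∈ range n, dist (f^[i] y) (x i)) atTop (𝓝 0)

/-- `g` (with threshold `ε₀`) is a mistake function. -/
def IsMistakeFunction (g : ℕ → ℝ → ℕ) (ε₀ : ℝ) : Prop :=
  0 < ε₀ ∧
  (∀ ε : ℝ, 0 < ε → ε ≤ ε₀ →
    (∀ n : ℕ, 1 ≤ n → g n ε ≤ g (n + 1) ε) ∧
    Tendsto (fun n : ℕ => (g n ε : ℝ) / n) atTop (𝓝 0)) ∧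
  ∀ ε : ℝ, ε₀ < ε → ∀ n : ℕ, g n ε = g n ε₀

/-- The ball `B_n(g; x, ε)`. -/
def mistakeBall (f : X → X) (g : ℕ → ℝ → ℕ) (n : ℕ) (x : X) (ε : ℝ) : Set X :=
  {y | ∃ Λ ⊆ range n, n - g n ε ≤ Λ.card ∧ ∀ j ∈ Λ, dist (f^[j] x) (f^[j] y) < ε}

/-- The almost specification property. -/
def AlmostSpecification (f : X → X) : Prop :=
  ∃ (g : ℕ → ℝ → ℕ) (ε₀ : ℝ) (kg : ℝ → ℕ), IsMistakeFunction g ε₀ ∧
    (∀ ε : ℝ, 0 < ε → ∀ n : ℕ, kg ε ≤ n → g n ε < n) ∧
    ∀ (m : ℕ) (ε : Fin m → ℝ) (x : Fin m → X) (n : Fin m → ℕ), 1 ≤ m →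
      (∀ j, 0 < ε j) → (∀ j, kg (ε j) ≤ n j) →
      ∃ z : X, ∀ j : Fin m, f^[∑ i ∈ Finset.univ.filter (fun i => i < j), n i] z ∈
        mistakeBall f g (n j) (x j) (ε j)

/-- Topological mixing. -/
def TopologicallyMixing (f : X → X) : Prop :=
  ∀ U V : Set X, IsOpen U → IsOpen V → U.Nonempty → V.Nonempty →
    ∃ N : ℕ, ∀ n ≥ N, ((f^[n] '' U) ∩ V).Nonempty

end Definitions

/-! ## Blocks -/

section Blocks

variable {X : Type*} [MetricSpace X]

/-- Concatenation of the orbit segments of length `n` of the points `p 0, p 1, …`. -/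
def blockSeq (f : X → X) (n : ℕ) (p : ℕ → X) (i : ℕ) : X := f^[i % n] (p (i / n))

/-- Finite average tracing of concatenations of orbit segments of length `n`. -/
def Traces (f : X → X) (n : ℕ) (ε : ℝ) : Prop :=
  ∃ N : ℕ, ∀ L ≥ N, ∀ p : ℕ → X, ∃ z : X,
    ∑ i ∈ range (n * L), dist (f^[i] z) (blockSeq f n p i) ≤ ε * (n * L : ℕ)

lemma blockSeq_step (f : X → X) (n : ℕ) (p : ℕ → X) (D : ℝ)
    (hD : ∀ a b : X, dist a b ≤ D) (i : ℕ) :
    dist (f (blockSeq f n p i)) (blockSeq f n p (i + 1)) ≤ D * (if n ∣ i + 1 then 1 else 0 : ℕ) := by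
  by_cases h : n ∣ i + 1
  · rw [if_pos h]
    simpa using hD _ _
  · rw [if_neg h]
    have h1 : (i + 1) / n = i / n := by rw [Nat.succ_div, if_neg h, add_zero]
    have h2 : (i + 1) % n = i % n + 1 := by
      have e1 := Nat.div_add_mod (i + 1) n
      have e2 := Nat.div_add_mod i n
      rw [h1] at e1
      omega
    unfold blockSeq
    rw [h1, h2, Function.iterate_succ_apply']
    simp

lemma sum_dvd (n k m : ℕ) :
    ∑ i ∈ range m, (if n ∣ k + i + 1 then 1 else 0) = (k + m) / n - k / n := by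
  induction m with
  | zero => simp
  | succ m ih =>
    rw [sum_range_succ, ih, ← add_assoc, Nat.succ_div]
    have : k / n ≤ (k + m) / n := Nat.div_le_div_right (by omega)
    omega

lemma div_window (n k m : ℕ) (hn : 1 ≤ n) : (k + m) / n - k / n ≤ m / n + 1 := by
  have h := Nat.add_div (a := k) (b := m) (c := n) (by omega)
  rw [h]
  generalize k / n = a
  generalize m / n = b
  split_ifs <;> omega

/-- The concatenation of longer and longer badly traced words. -/
lemma stage_exists (f : X → X) (n : ℕ → ℕ) (hn : ∀ k, 1 ≤ n k) (ε : ℝ)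
    (hbad : ∀ k, ¬ Traces f (n k) ε) :
    ∃ (S L : ℕ → ℕ) (b : ℕ → ℕ → X) (x : ℕ → X), S 0 = 0 ∧
      (∀ k, S (k + 1) = S k + n k * L k) ∧ (∀ k, S k < L k) ∧
      (∀ k z, ε * (n k * L k : ℕ) <
        ∑ i ∈ range (n k * L k), dist (f^[i] z) (blockSeq f (n k) (b k) i)) ∧
      ∀ k j, j < n k * L k → x (S k + j) = blockSeq f (n k) (b k) j := by
  classical
  have hb : ∀ k N : ℕ, ∃ L : ℕ, ∃ p : ℕ → X, N < L ∧ ∀ z : X, ε * (n k * L : ℕ) <
      ∑ i ∈ range (n k * L), dist (f^[i] z) (blockSeq f (n k) p i) := by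
    intro k N
    have := hbad k
    unfold Traces at this
    push Not at this
    obtain ⟨L, hL, p, hp⟩ := this (N + 1)
    exact ⟨L, p, by omega, hp⟩
  choose L b hLb hbb using hb
  obtain ⟨S, hS0, hS⟩ : ∃ S : ℕ → ℕ, S 0 = 0 ∧ ∀ k, S (k + 1) = S k + n k * L k (S k) :=
    ⟨fun k => Nat.rec 0 (fun k s => s + n k * L k s) k, rfl, fun k => rfl⟩
  have hSlt : ∀ k, S k < S (k + 1) := by
    intro k
    rw [hS]
    have := hLb k (S k)
    have := hn k
    have : 0 < n k * L k (S k) := Nat.mul_pos (by omega) (by omega)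
    omega
  have hmono : StrictMono S := strictMono_nat_of_lt_succ hSlt
  have hid : ∀ k, k ≤ S k := hmono.id_le
  let st : ℕ → ℕ := fun i => Nat.findGreatest (fun k => S k ≤ i) i
  have hst : ∀ k j, j < n k * L k (S k) → st (S k + j) = k := by
    intro k j hj
    have h1 : k ≤ st (S k + j) :=
      Nat.le_findGreatest (by have := hid k; omega) (by omega)
    have h2 : S (st (S k + j)) ≤ S k + j :=
      Nat.findGreatest_spec (P := fun t => S t ≤ S k + j) (m := 0) (by omega) (by omega)
    have h3 : st (S k + j) < k + 1 := by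
      rw [← hmono.lt_iff_lt, hS]
      omega
    omega
  refine ⟨S, fun k => L k (S k), fun k => b k (S k),
    fun i => blockSeq f (n (st i)) (b (st i) (S (st i))) (i - S (st i)), hS0, hS,
    fun k => hLb k (S k), fun k z => hbb k (S k) z, ?_⟩
  intro k j hj
  simp only
  rw [hst k j hj, Nat.add_sub_cancel_left]

lemma stage_cover (n S L : ℕ → ℕ) (hn : ∀ k, 1 ≤ n k) (hS0 : S 0 = 0)
    (hS : ∀ k, S (k + 1) = S k + n k * L k) (hSL : ∀ k, S k < L k) (i : ℕ) :
    ∃ k j, j < n k * L k ∧ i = S k + j := by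
  have hpos : ∀ k, 0 < n k * L k := fun k =>
    Nat.mul_pos (by have := hn k; omega) (by have := hSL k; omega)
  induction i with
  | zero => exact ⟨0, 0, hpos 0, by omega⟩
  | succ i ih =>
    obtain ⟨k, j, hj, rfl⟩ := ih
    rcases Nat.lt_or_ge (j + 1) (n k * L k) with h | h
    · exact ⟨k, j + 1, h, by omega⟩
    · exact ⟨k + 1, 0, hpos _, by rw [hS]; omega⟩

/-- A concatenation of badly traced words is not traced in average. -/
lemma not_traced (f : X → X) (n : ℕ → ℕ) (hn : ∀ k, 1 ≤ n k) (ε : ℝ) (hε : 0 < ε)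
    (S L : ℕ → ℕ) (b : ℕ → ℕ → X) (x : ℕ → X)
    (hS : ∀ k, S (k + 1) = S k + n k * L k) (hSL : ∀ k, S k < L k)
    (hbb : ∀ k z, ε * (n k * L k : ℕ) <
        ∑ i ∈ range (n k * L k), dist (f^[i] z) (blockSeq f (n k) (b k) i))
    (hx : ∀ k j, j < n k * L k → x (S k + j) = blockSeq f (n k) (b k) j) (z : X) :
    ¬ ∀ᶠ M : ℕ in atTop, ∑ i ∈ range M, dist (f^[i] z) (x i) ≤ ε / 2 * M := by
  intro h
  obtain ⟨M, hM⟩ := eventually_atTop.1 h
  have hlarge : ∀ k, k ≤ S k := by
    intro k
    induction k with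
    | zero => omega
    | succ k ih =>
      rw [hS]
      have h1 := hSL k
      have h2 := hn k
      have : 0 < n k * L k := Nat.mul_pos (by omega) (by omega)
      omega
  have h1 := hM (S (M + 1)) (by have := hlarge (M + 1); omega)
  rw [hS, sum_range_add] at h1
  have h2 : ∑ i ∈ range (n M * L M), dist (f^[S M + i] z) (x (S M + i)) =
      ∑ i ∈ range (n M * L M), dist (f^[i] (f^[S M] z)) (blockSeq f (n M) (b M) i) := by
    refine sum_congr rfl (fun i hi => ?_)
    rw [hx M i (mem_range.1 hi), add_comm (S M) i, Function.iterate_add_apply]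
  rw [h2] at h1
  have h3 := hbb M (f^[S M] z)
  have h4 : 0 ≤ ∑ i ∈ range (S M), dist (f^[i] z) (x i) := sum_nonneg (fun _ _ => dist_nonneg)
  have h5 : S M ≤ n M * L M := by
    have h1 := hSL M
    have h2 := hn M
    nlinarith
  have h6 : ((S M + n M * L M : ℕ) : ℝ) ≤ 2 * (n M * L M : ℕ) := by
    have : S M + n M * L M ≤ 2 * (n M * L M) := by omega
    exact_mod_cast this
  nlinarith

/-- Errors inside a stage. -/
lemma stage_err (f : X → X) (D : ℝ) (hD : ∀ a b : X, dist a b ≤ D)
    (n : ℕ) (L S : ℕ) (b : ℕ → X) (x : ℕ → X)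
    (hx : ∀ j, j < n * L → x (S + j) = blockSeq f n b j) (j : ℕ) (hj : j < n * L) :
    dist (f (x (S + j))) (x (S + j + 1)) ≤ D * (if n ∣ j + 1 then 1 else 0 : ℕ) := by
  rcases Nat.lt_or_ge (j + 1) (n * L) with h | h
  · rw [add_assoc, hx j hj, hx (j + 1) h]
    exact blockSeq_step f n b D hD j
  · have : n ∣ j + 1 := ⟨L, by omega⟩
    rw [if_pos this]
    simpa using hD _ _

lemma sum_blocks (F : ℕ → ℝ) (n L : ℕ) :
    ∑ i ∈ range (n * L), F i = ∑ j ∈ range L, ∑ i ∈ range n, F (n * j + i) := by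
  induction L with
  | zero => simp
  | succ L ih => rw [Nat.mul_succ, sum_range_add, ih, sum_range_succ]

omit [MetricSpace X] in
lemma blockSeq_block (f : X → X) (n : ℕ) (p : ℕ → X) (j i : ℕ) (hi : i < n) :
    blockSeq f n p (n * j + i) = f^[i] (p j) := by
  unfold blockSeq
  rw [Nat.mul_add_mod, Nat.mod_eq_of_lt hi, Nat.mul_add_div (by omega), Nat.div_eq_of_lt hi,
    add_zero]

/-- The average shadowing property implies finite average tracing. -/
lemma traces_of_asp (f : X → X) (h : AverageShadowing f) (D : ℝ) (hD0 : 0 < D)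
    (hD : ∀ a b : X, dist a b ≤ D) (ε : ℝ) (hε : 0 < ε) : ∃ n, 1 ≤ n ∧ Traces f n ε := by
  by_contra hcon
  push Not at hcon
  obtain ⟨δ, hδ, hsh⟩ := h (ε / 2) (by linarith)
  obtain ⟨n, hn⟩ := exists_nat_gt (2 * D / δ)
  have hnpos : (0 : ℝ) < n := lt_trans (by positivity) hn
  have hn1 : 1 ≤ n := by exact_mod_cast hnpos
  have hDn : D / n < δ / 2 := by
    rw [div_lt_iff₀ hδ] at hn
    rw [div_lt_iff₀ hnpos]
    linarith
  obtain ⟨S, L, b, x, hS0, hS, hSL, hbb, hx⟩ :=
    stage_exists f (fun _ => n) (fun _ => hn1) ε (fun _ => hcon n hn1)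
  have hdvd : ∀ k, n ∣ S k := by
    intro k
    induction k with
    | zero => simp [hS0]
    | succ k ih =>
      rw [hS]
      exact dvd_add ih (dvd_mul_right _ _)
  have herr : ∀ i, dist (f (x i)) (x (i + 1)) ≤ D * (if n ∣ i + 1 then 1 else 0 : ℕ) := by
    intro i
    obtain ⟨k, j, hj, rfl⟩ := stage_cover (fun _ => n) S L (fun _ => hn1) hS0 hS hSL i
    have h1 := stage_err f D hD n (L k) (S k) (b k) x (hx k) j hj
    have h2 : (n ∣ S k + j + 1) ↔ (n ∣ j + 1) := by
      rw [add_assoc, Nat.dvd_add_right (hdvd k)]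
    simp only [h2]
    exact h1
  have hpo : IsAveragePseudoOrbit f δ x := by
    refine ⟨n, by omega, fun m hm k => ?_⟩
    have hmpos : (0 : ℝ) < m := lt_of_lt_of_le hnpos (by exact_mod_cast hm)
    have h1 : ∑ i ∈ range m, dist (f (x (i + k))) (x (i + k + 1)) ≤ D * (m / n + 1) := by
      calc ∑ i ∈ range m, dist (f (x (i + k))) (x (i + k + 1))
          ≤ ∑ i ∈ range m, D * (if n ∣ k + i + 1 then 1 else 0 : ℕ) := by
            refine sum_le_sum (fun i _ => ?_)
            rw [add_comm k i]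
            exact herr (i + k)
        _ = D * (((k + m) / n - k / n : ℕ) : ℝ) := by
            rw [← mul_sum, ← Nat.cast_sum, sum_dvd]
        _ ≤ D * ((m / n + 1 : ℕ) : ℝ) := by
            refine mul_le_mul_of_nonneg_left ?_ hD0.le
            exact_mod_cast div_window n k m hn1
        _ ≤ D * (m / n + 1) := by
            refine mul_le_mul_of_nonneg_left ?_ hD0.le
            push_cast
            have := @Nat.cast_div_le ℝ _ _ _ m n
            linarith
    have h2 : D / m ≤ D / n := by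
      have : (n : ℝ) ≤ m := by exact_mod_cast hm
      gcongr
    calc (1 / (m : ℝ)) * ∑ i ∈ range m, dist (f (x (i + k))) (x (i + k + 1))
        ≤ (1 / (m : ℝ)) * (D * (m / n + 1)) := by gcongr
      _ = D / n + D / m := by field_simp
      _ < δ := by linarith
  obtain ⟨y, hy⟩ := hsh x hpo
  refine not_traced f (fun _ => n) (fun _ => hn1) ε hε S L b x hS hSL hbb hx y ?_
  have hev : ∀ᶠ M : ℕ in atTop,
      (1 / (M : ℝ)) * ∑ i ∈ range M, dist (f^[i] y) (x i) < ε / 2 := by
    refine eventually_lt_of_limsup_lt hy ?_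
    refine isBoundedUnder_of ⟨D, fun M => ?_⟩
    rcases Nat.eq_zero_or_pos M with rfl | hM
    · simpa using hD0.le
    · have hM' : (0 : ℝ) < M := by exact_mod_cast hM
      rw [one_div, inv_mul_le_iff₀ hM']
      calc ∑ i ∈ range M, dist (f^[i] y) (x i) ≤ ∑ _i ∈ range M, D :=
            sum_le_sum (fun i _ => hD _ _)
        _ = M * D := by simp
  filter_upwards [hev, eventually_gt_atTop 0] with M hM hM0
  have hM' : (0 : ℝ) < M := by exact_mod_cast hM0
  rw [one_div, inv_mul_lt_iff₀ hM'] at hM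
  linarith

/-- The asymptotic average shadowing property implies finite average tracing. -/
lemma traces_of_aasp (f : X → X) (h : AsymptoticAverageShadowing f) (D : ℝ) (hD0 : 0 < D)
    (hD : ∀ a b : X, dist a b ≤ D) (ε : ℝ) (hε : 0 < ε) : ∃ n, 1 ≤ n ∧ Traces f n ε := by
  by_contra hcon
  push Not at hcon
  obtain ⟨S, L, b, x, hS0, hS, hSL, hbb, hx⟩ :=
    stage_exists f (fun k => k + 1) (fun k => by omega) ε (fun k => hcon (k + 1) (by omega))
  have hstage : ∀ k m, m ≤ (k + 1) * L k →
      ∑ j ∈ range m, dist (f (x (S k + j))) (x (S k + j + 1)) ≤ D * ((m / (k + 1) : ℕ) : ℝ) := by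
    intro k m hm
    calc ∑ j ∈ range m, dist (f (x (S k + j))) (x (S k + j + 1))
        ≤ ∑ j ∈ range m, D * (if (k + 1) ∣ 0 + j + 1 then 1 else 0 : ℕ) := by
          refine sum_le_sum (fun j hj => ?_)
          rw [zero_add]
          exact stage_err f D hD (k + 1) (L k) (S k) (b k) x (hx k) j
            (lt_of_lt_of_le (mem_range.1 hj) hm)
      _ = D * ((m / (k + 1) : ℕ) : ℝ) := by
          rw [← mul_sum, ← Nat.cast_sum, sum_dvd]
          simp
  have hE : ∀ k0 M, S (k0 + 1) ≤ M →
      (k0 + 1 : ℝ) * ∑ i ∈ range M, dist (f (x i)) (x (i + 1)) ≤ 2 * D * M := by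
    intro k0 M hM
    obtain ⟨k, j, hj, rfl⟩ := stage_cover (fun k => k + 1) S L (fun k => by omega) hS0 hS hSL M
    have hmono : Monotone S := monotone_nat_of_le_succ (fun k => by rw [hS]; omega)
    have hk : k0 + 1 ≤ k := by
      by_contra hlt
      have h1 : S (k + 1) ≤ S (k0 + 1) := hmono (by omega)
      have h2 := hS k
      omega
    obtain ⟨k', rfl⟩ : ∃ k', k = k' + 1 := ⟨k - 1, by omega⟩
    have h1 : ∑ i ∈ range (S k'), dist (f (x i)) (x (i + 1)) ≤ D * S k' := by
      calc ∑ i ∈ range (S k'), dist (f (x i)) (x (i + 1)) ≤ ∑ _i ∈ range (S k'), D :=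
            sum_le_sum (fun i _ => hD _ _)
        _ = D * S k' := by simp [mul_comm]
    have h2 := hstage k' ((k' + 1) * L k') le_rfl
    rw [Nat.mul_div_cancel_left _ (by omega : 0 < k' + 1)] at h2
    have h3 := hstage (k' + 1) j (by omega)
    have h4 : ((k' + 1 : ℕ) : ℝ) * ((j / (k' + 1 + 1) : ℕ) : ℝ) ≤ j := by
      have h5 : (k' + 1 + 1) * (j / (k' + 1 + 1)) ≤ j := Nat.mul_div_le _ _
      have h6 : (k' + 1) * (j / (k' + 1 + 1)) ≤ (k' + 1 + 1) * (j / (k' + 1 + 1)) :=
        Nat.mul_le_mul_right _ (by omega)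
      exact_mod_cast h6.trans h5
    have hSL' : (S k' : ℝ) ≤ L k' := by exact_mod_cast (hSL k').le
    have hSk : (S (k' + 1) : ℝ) = S k' + (k' + 1) * L k' := by
      rw [hS]; push_cast; ring
    have hsum : ∑ i ∈ range (S (k' + 1) + j), dist (f (x i)) (x (i + 1)) =
        ∑ i ∈ range (S k'), dist (f (x i)) (x (i + 1)) +
        ∑ i ∈ range ((k' + 1) * L k'), dist (f (x (S k' + i))) (x (S k' + i + 1)) +
        ∑ i ∈ range j, dist (f (x (S (k' + 1) + i))) (x (S (k' + 1) + i + 1)) := by
      rw [sum_range_add, hS k', sum_range_add]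
    set E := ∑ i ∈ range (S (k' + 1) + j), dist (f (x i)) (x (i + 1)) with hEdef
    have hE0 : 0 ≤ E := sum_nonneg (fun _ _ => dist_nonneg)
    have hEle : E ≤ 2 * D * L k' + D * ((j / (k' + 1 + 1) : ℕ) : ℝ) := by
      rw [hsum]
      have : D * S k' ≤ D * L k' := mul_le_mul_of_nonneg_left hSL' hD0.le
      linarith
    have hkk : (k0 + 1 : ℝ) ≤ k' + 1 := by
      have : k0 ≤ k' := by omega
      have : (k0 : ℝ) ≤ k' := by exact_mod_cast this
      linarith
    have hS0' : (0 : ℝ) ≤ S k' := Nat.cast_nonneg _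
    have hL0 : (0 : ℝ) ≤ L k' := Nat.cast_nonneg _
    have hj0 : (0 : ℝ) ≤ j := Nat.cast_nonneg _
    calc (k0 + 1 : ℝ) * E ≤ (k' + 1) * E := mul_le_mul_of_nonneg_right hkk hE0
      _ ≤ (k' + 1) * (2 * D * L k' + D * ((j / (k' + 1 + 1) : ℕ) : ℝ)) :=
          mul_le_mul_of_nonneg_left hEle (by positivity)
      _ = 2 * D * ((k' + 1) * L k') + D * (((k' + 1 : ℕ) : ℝ) * ((j / (k' + 1 + 1) : ℕ) : ℝ)) := by
          push_cast; ring
      _ ≤ 2 * D * ((k' + 1) * L k') + D * j := by
          have := mul_le_mul_of_nonneg_left h4 hD0.le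
          linarith
      _ ≤ 2 * D * ((S (k' + 1) + j : ℕ) : ℝ) := by
          push_cast
          rw [hSk]
          nlinarith [mul_nonneg hD0.le hS0', mul_nonneg hD0.le hj0]
  have hpo : Tendsto (fun n : ℕ => (1 / (n : ℝ)) * ∑ i ∈ range n, dist (f (x i)) (x (i + 1)))
      atTop (𝓝 0) := by
    rw [Metric.tendsto_atTop]
    intro η hη
    obtain ⟨k0, hk0⟩ := exists_nat_gt (2 * D / η)
    refine ⟨S (k0 + 1) + 1, fun M hM => ?_⟩
    have hMpos : (0 : ℝ) < M := by
      have : 0 < M := by omega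
      exact_mod_cast this
    have h1 := hE k0 M (by omega)
    have h2 : 0 ≤ ∑ i ∈ range M, dist (f (x i)) (x (i + 1)) := sum_nonneg (fun _ _ => dist_nonneg)
    rw [Real.dist_eq, sub_zero, abs_of_nonneg (by positivity), one_div, inv_mul_lt_iff₀ hMpos]
    rw [div_lt_iff₀ hη] at hk0
    have hk1 : (0 : ℝ) < k0 + 1 := by positivity
    by_contra hcon2
    push Not at hcon2
    have h3 : (k0 + 1 : ℝ) * (M * η) ≤ 2 * D * M :=
      (mul_le_mul_of_nonneg_left hcon2 hk1.le).trans h1
    have h4 : (k0 + 1 : ℝ) * η ≤ 2 * D := by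
      by_contra h5
      push Not at h5
      nlinarith
    nlinarith
  obtain ⟨y, hy⟩ := h x hpo
  refine not_traced f (fun k => k + 1) (fun k => by omega) ε hε S L b x hS hSL hbb hx y ?_
  have hev := hy.eventually (gt_mem_nhds (show (0 : ℝ) < ε / 2 by linarith))
  filter_upwards [hev, eventually_gt_atTop 0] with M hM hM0
  have hM' : (0 : ℝ) < M := by exact_mod_cast hM0
  rw [one_div, inv_mul_lt_iff₀ hM'] at hM
  linarith

/-- The almost specification property implies finite average tracing. -/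
lemma traces_of_almost (f : X → X) (h : AlmostSpecification f) (D : ℝ) (hD0 : 0 < D)
    (hD : ∀ a b : X, dist a b ≤ D) (ε : ℝ) (hε : 0 < ε) : ∃ n, 1 ≤ n ∧ Traces f n ε := by
  obtain ⟨g, ε₀, kg, ⟨hε₀, hg, hg'⟩, hkg, hspec⟩ := h
  have hlim : Tendsto (fun n : ℕ => (g n (ε / 2) : ℝ) / n) atTop (𝓝 0) := by
    rcases le_or_gt (ε / 2) ε₀ with h1 | h1
    · exact (hg (ε / 2) (by linarith) h1).2
    · have h2 := (hg ε₀ hε₀ le_rfl).2
      refine h2.congr (fun n => ?_)
      rw [hg' _ h1]
  have hev := hlim.eventually (gt_mem_nhds (show (0 : ℝ) < ε / (2 * D) by positivity))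
  obtain ⟨n, hn1, hn2, hn3⟩ :=
    (hev.and ((eventually_ge_atTop (kg (ε / 2))).and (eventually_ge_atTop 1))).exists
  have hnpos : (0 : ℝ) < n := by exact_mod_cast hn3
  rw [div_lt_iff₀ hnpos] at hn1
  refine ⟨n, hn3, 1, fun L hL p => ?_⟩
  obtain ⟨z, hz⟩ := hspec L (fun _ => ε / 2) (fun j => p j) (fun _ => n) hL
    (fun _ => by linarith) (fun _ => hn2)
  refine ⟨z, ?_⟩
  rw [sum_blocks]
  have hgn := hkg (ε / 2) (by linarith) n hn2
  have hblock : ∀ j ∈ range L, ∑ i ∈ range n,
      dist (f^[n * j + i] z) (blockSeq f n p (n * j + i)) ≤ ε * n := by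
    intro j hj
    rw [mem_range] at hj
    obtain ⟨Λ, hΛ, hcard, hdist⟩ := hz ⟨j, hj⟩
    have hl : ∑ i ∈ Finset.univ.filter (fun i : Fin L => i < ⟨j, hj⟩), n = n * j := by
      rw [sum_const, smul_eq_mul, mul_comm]
      congr 1
      have : Finset.univ.filter (fun i : Fin L => i < ⟨j, hj⟩) = Finset.Iio ⟨j, hj⟩ := by
        ext i; simp
      rw [this, Fin.card_Iio]
    rw [hl] at hdist
    have h1 : ∀ i ∈ range n, dist (f^[n * j + i] z) (blockSeq f n p (n * j + i)) ≤
        ε / 2 + (if i ∈ Λ then 0 else D) := by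
      intro i hi
      rw [blockSeq_block f n p j i (mem_range.1 hi)]
      by_cases hiΛ : i ∈ Λ
      · rw [if_pos hiΛ, add_zero, add_comm (n * j) i, Function.iterate_add_apply, dist_comm]
        exact (hdist i hiΛ).le
      · rw [if_neg hiΛ]
        have := hD (f^[n * j + i] z) (f^[i] (p j))
        linarith
    have h2 : ∑ i ∈ range n, (if i ∈ Λ then (0 : ℝ) else D) = ((n - Λ.card : ℕ) : ℝ) * D := by
      rw [Finset.sum_ite, sum_const_zero, zero_add, sum_const, nsmul_eq_mul]
      congr 2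
      rw [← Finset.sdiff_eq_filter, Finset.card_sdiff_of_subset hΛ, card_range]
    have h3 : ((n - Λ.card : ℕ) : ℝ) ≤ g n (ε / 2) := by
      have : n - Λ.card ≤ g n (ε / 2) := by omega
      exact_mod_cast this
    calc ∑ i ∈ range n, dist (f^[n * j + i] z) (blockSeq f n p (n * j + i))
        ≤ ∑ i ∈ range n, (ε / 2 + (if i ∈ Λ then 0 else D)) := sum_le_sum h1
      _ = n * (ε / 2) + ((n - Λ.card : ℕ) : ℝ) * D := by
          rw [sum_add_distrib, h2]; simp
      _ ≤ n * (ε / 2) + g n (ε / 2) * D := by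
          have := mul_le_mul_of_nonneg_right h3 hD0.le
          linarith
      _ ≤ n * (ε / 2) + (ε / (2 * D) * n) * D := by
          have := mul_le_mul_of_nonneg_right hn1.le hD0.le
          linarith
      _ = ε * n := by field_simp; ring
  calc ∑ j ∈ range L, ∑ i ∈ range n, dist (f^[n * j + i] z) (blockSeq f n p (n * j + i))
      ≤ ∑ j ∈ range L, ε * n := sum_le_sum hblock
    _ = ε * (n * L : ℕ) := by simp; ring

end Blocks

/-! ## Pairs of orbits which are far apart on average -/

section Pairs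

variable {X : Type*} [MetricSpace X] [CompactSpace X] [MeasurableSpace X] [BorelSpace X]

lemma exists_pair [Nontrivial X] (f : X → X) (hf : Continuous f)
    (hc : measureCenter f = Set.univ) :
    ∃ c : ℝ, 0 < c ∧ ∀ n : ℕ, ∃ x y : X, c * n ≤ ∑ j ∈ range n, dist (f^[j] x) (f^[j] y) := by
  by_cases hid : ∀ p, f p = p
  · obtain ⟨a, b, hab⟩ := exists_pair_ne X
    refine ⟨dist a b, dist_pos.2 hab, fun n => ⟨a, b, ?_⟩⟩
    have hit : ∀ (j : ℕ) (p : X), f^[j] p = p := fun j p => Function.iterate_fixed (hid p) j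
    simp only [hit]
    simp [mul_comm]
  · push Not at hid
    obtain ⟨p, hp⟩ := hid
    have hφc : Continuous (fun x : X => dist x (f x)) := continuous_id.dist hf
    have hopen : IsOpen {x : X | dist x (f x) ≠ 0} := isOpen_ne_fun hφc continuous_const
    have hpm : p ∈ measureCenter f := by rw [hc]; trivial
    have hex : ∃ μ : Measure X, IsProbabilityMeasure μ ∧ MeasurePreserving f μ μ ∧
        μ {x : X | dist x (f x) ≠ 0} ≠ 0 := by
      by_contra hcon
      push Not at hcon
      exact hpm ⟨_, ⟨hopen, hcon⟩, by simpa [dist_eq_zero] using fun h : p = f p => hp h.symm⟩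
    obtain ⟨μ, hμ, hμf, hμU⟩ := hex
    have hint : Integrable (fun x : X => dist x (f x)) μ :=
      hφc.integrable_of_hasCompactSupport (HasCompactSupport.of_compactSpace _)
    refine ⟨∫ x, dist x (f x) ∂μ, ?_, fun n => ?_⟩
    · rw [integral_pos_iff_support_of_nonneg (fun x => dist_nonneg) hint]
      exact pos_iff_ne_zero.2 hμU
    · have hintj : ∀ j : ℕ, Integrable (fun x : X => dist (f^[j] x) (f^[j] (f x))) μ := by
        intro j
        have hcj : Continuous (fun x : X => dist (f^[j] x) (f^[j] (f x))) :=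
          (hf.iterate j).dist ((hf.iterate j).comp hf)
        exact hcj.integrable_of_hasCompactSupport (HasCompactSupport.of_compactSpace _)
      have hj : ∀ j : ℕ, ∫ x, dist (f^[j] x) (f^[j] (f x)) ∂μ = ∫ x, dist x (f x) ∂μ := by
        intro j
        have h1 := (hμf.iterate j)
        have h2 : (fun x : X => dist (f^[j] x) (f^[j] (f x))) =
            fun x => (fun y : X => dist y (f y)) (f^[j] x) := by
          funext x
          simp only
          rw [← Function.iterate_succ_apply, Function.iterate_succ_apply']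
        rw [h2]
        rw [← integral_map h1.measurable.aemeasurable hφc.aestronglyMeasurable, h1.map_eq]
      obtain ⟨x, hx⟩ := exists_integral_le (μ := μ)
        (f := fun x : X => ∑ j ∈ range n, dist (f^[j] x) (f^[j] (f x)))
        (integrable_finsetSum _ (fun j _ => hintj j))
      refine ⟨x, f x, le_trans (le_of_eq ?_) hx⟩
      rw [integral_finsetSum _ (fun j _ => hintj j), sum_congr rfl (fun j _ => hj j)]
      simp [mul_comm]

end Pairs

/-! ## Positive entropy -/

section Entropy

open scoped symmDiff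

lemma volume_bound (K q : ℕ) (hK : K = 10 * q) :
    (((range K).powerset.filter (fun C => C.card ≤ q)).card : ℝ) ≤ (512 : ℝ) ^ q := by
  have h1 : ∑ C ∈ (range K).powerset, (1 / 4 : ℝ) ^ C.card * 1 ^ (K - C.card) =
      (1 / 4 + 1) ^ K := by
    have := Finset.sum_pow_mul_eq_add_pow (1 / 4 : ℝ) 1 (range K)
    rwa [card_range] at this
  have h2 : (((range K).powerset.filter (fun C => C.card ≤ q)).card : ℝ) * (1 / 4 : ℝ) ^ q ≤
      (5 / 4 : ℝ) ^ K := by
    calc (((range K).powerset.filter (fun C => C.card ≤ q)).card : ℝ) * (1 / 4 : ℝ) ^ q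
        = ∑ C ∈ (range K).powerset.filter (fun C => C.card ≤ q), (1 / 4 : ℝ) ^ q := by
          rw [sum_const, nsmul_eq_mul]
      _ ≤ ∑ C ∈ (range K).powerset.filter (fun C => C.card ≤ q), (1 / 4 : ℝ) ^ C.card := by
          refine sum_le_sum (fun C hC => ?_)
          exact pow_le_pow_of_le_one (by norm_num) (by norm_num) (mem_filter.1 hC).2
      _ ≤ ∑ C ∈ (range K).powerset, (1 / 4 : ℝ) ^ C.card :=
          sum_le_sum_of_subset_of_nonneg (filter_subset _ _) (fun _ _ _ => by positivity)
      _ = (5 / 4 : ℝ) ^ K := by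
          rw [show (5 / 4 : ℝ) = 1 / 4 + 1 by norm_num, ← h1]
          simp
  have h3 : (5 / 4 : ℝ) ^ K ≤ (128 : ℝ) ^ q := by
    rw [hK, pow_mul]
    exact pow_le_pow_left₀ (by positivity) (by norm_num) q
  have h4 : (((range K).powerset.filter (fun C => C.card ≤ q)).card : ℝ) * (1 / 4 : ℝ) ^ q ≤
      (128 : ℝ) ^ q := h2.trans h3
  rw [one_div, inv_pow, ← div_eq_mul_inv, div_le_iff₀ (by positivity), ← mul_pow] at h4
  norm_num at h4
  exact h4

variable {X : Type*} [MetricSpace X]

lemma cover_bound (f : X → X) (c : ℝ) (hc : 0 < c) (n : ℕ) (hn : 1 ≤ n)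
    (x y : X) (hxy : c * n ≤ ∑ j ∈ range n, dist (f^[j] x) (f^[j] y)) (q : ℕ)
    (htr : ∀ p : ℕ → X, ∃ z : X, ∑ i ∈ range (n * (10 * q)), dist (f^[i] z) (blockSeq f n p i) ≤
      c / 40 * (n * (10 * q) : ℕ)) (s : Finset X)
    (hs : Dynamics.IsDynCoverOf f Set.univ {p : X × X | dist p.1 p.2 < c / 40} (n * (10 * q))
      (s : Set X)) : 2 ^ q ≤ s.card := by
  classical
  let P : Finset ℕ → ℕ → X := fun A j => if j ∈ A then x else y
  choose Z hZ using fun A : Finset ℕ => htr (P A)
  have hcov : ∀ A : Finset ℕ, ∃ w ∈ s, ∀ i < n * (10 * q), dist (f^[i] (Z A)) (f^[i] w) < c / 40 := by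
    intro A
    obtain ⟨w, hw, hw2⟩ := hs (Set.mem_univ (Z A))
    exact ⟨w, hw, fun i hi => Dynamics.mem_dynEntourage.1 hw2 i hi⟩
  choose W hWs hW using hcov
  set K := 10 * q with hK
  have hnpos : (0 : ℝ) < n := by exact_mod_cast hn
  have hclose : ∀ A ∈ (range K).powerset, ∀ B ∈ (range K).powerset, W A = W B →
      (A ∆ B).card ≤ q := by
    intro A hA B hB hAB
    have hAs := mem_powerset.1 hA
    have hBs := mem_powerset.1 hB
    have hupper : ∑ i ∈ range (n * K), dist (blockSeq f n (P A) i) (blockSeq f n (P B) i) ≤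
        c * n * q := by
      have h1 : ∀ i ∈ range (n * K), dist (blockSeq f n (P A) i) (blockSeq f n (P B) i) ≤
          dist (f^[i] (Z A)) (blockSeq f n (P A) i) + dist (f^[i] (Z B)) (blockSeq f n (P B) i) +
          (c / 40 + c / 40) := by
        intro i hi
        have hi' := mem_range.1 hi
        have e1 := hW A i hi'
        have e2 := hW B i hi'
        rw [← hAB] at e2
        have t1 := dist_triangle (blockSeq f n (P A) i) (f^[i] (Z A)) (blockSeq f n (P B) i)
        have t2 := dist_triangle (f^[i] (Z A)) (f^[i] (Z B)) (blockSeq f n (P B) i)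
        have t3 := dist_triangle_right (f^[i] (Z A)) (f^[i] (Z B)) (f^[i] (W A))
        rw [dist_comm (blockSeq f n (P A) i) (f^[i] (Z A))] at t1
        linarith
      calc ∑ i ∈ range (n * K), dist (blockSeq f n (P A) i) (blockSeq f n (P B) i)
          ≤ ∑ i ∈ range (n * K), (dist (f^[i] (Z A)) (blockSeq f n (P A) i) +
            dist (f^[i] (Z B)) (blockSeq f n (P B) i) + (c / 40 + c / 40)) := sum_le_sum h1
        _ = ∑ i ∈ range (n * K), dist (f^[i] (Z A)) (blockSeq f n (P A) i) +
            ∑ i ∈ range (n * K), dist (f^[i] (Z B)) (blockSeq f n (P B) i) +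
            (n * K : ℕ) * (c / 40 + c / 40) := by
            rw [sum_add_distrib, sum_add_distrib]; simp; ring
        _ ≤ c / 40 * (n * K : ℕ) + c / 40 * (n * K : ℕ) + (n * K : ℕ) * (c / 40 + c / 40) := by
            have := hZ A
            have := hZ B
            linarith
        _ = c * n * q := by
            rw [hK]; push_cast; ring
    have hlower : ((A ∆ B).card : ℝ) * (c * n) ≤
        ∑ i ∈ range (n * K), dist (blockSeq f n (P A) i) (blockSeq f n (P B) i) := by
      rw [sum_blocks]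
      have h1 : ∀ j ∈ range K, (if j ∈ A ∆ B then c * n else 0) ≤
          ∑ i ∈ range n, dist (blockSeq f n (P A) (n * j + i)) (blockSeq f n (P B) (n * j + i)) := by
        intro j _
        have h2 : ∑ i ∈ range n, dist (blockSeq f n (P A) (n * j + i))
            (blockSeq f n (P B) (n * j + i)) =
            ∑ i ∈ range n, dist (f^[i] (P A j)) (f^[i] (P B j)) := by
          refine sum_congr rfl (fun i hi => ?_)
          rw [blockSeq_block f n _ j i (mem_range.1 hi), blockSeq_block f n _ j i (mem_range.1 hi)]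
        rw [h2]
        by_cases hj : j ∈ A ∆ B
        · rw [if_pos hj]
          rcases Finset.mem_symmDiff.1 hj with ⟨hjA, hjB⟩ | ⟨hjB, hjA⟩
          · simp only [P, if_pos hjA, if_neg hjB]
            exact hxy
          · simp only [P, if_pos hjB, if_neg hjA]
            refine hxy.trans (le_of_eq (sum_congr rfl (fun i _ => dist_comm _ _)))
        · rw [if_neg hj]
          exact sum_nonneg (fun _ _ => dist_nonneg)
      calc ((A ∆ B).card : ℝ) * (c * n) = ∑ j ∈ range K, (if j ∈ A ∆ B then c * n else 0) := by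
            rw [← sum_filter, sum_const, nsmul_eq_mul]
            congr 2
            congr 1
            ext j
            simp only [mem_filter, mem_range]
            constructor
            · intro hj
              refine ⟨?_, hj⟩
              rcases Finset.mem_symmDiff.1 hj with ⟨hjA, _⟩ | ⟨hjB, _⟩
              · exact mem_range.1 (hAs hjA)
              · exact mem_range.1 (hBs hjB)
            · exact fun h => h.2
        _ ≤ _ := sum_le_sum h1
    have h3 := hlower.trans hupper
    have h4 : ((A ∆ B).card : ℝ) ≤ q := by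
      have hcn : 0 < c * n := by positivity
      nlinarith
    exact_mod_cast h4
  -- counting
  set V := ((range K).powerset.filter (fun C => C.card ≤ q)).card with hV
  have hcount : (range K).powerset.card ≤ V * s.card := by
    refine card_le_mul_card_image_of_maps_to (f := W) (fun A _ => hWs A) V (fun w _ => ?_)
    rcases ((range K).powerset.filter (fun A => W A = w)).eq_empty_or_nonempty with h | ⟨A, hA⟩
    · rw [h]; simp
    · rw [mem_filter] at hA
      refine card_le_card_of_injOn (fun B => A ∆ B) ?_ ?_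
      · intro B hB
        rw [mem_coe, mem_filter] at hB ⊢
        refine ⟨?_, hclose A hA.1 B hB.1 (hA.2.trans hB.2.symm)⟩
        rw [mem_powerset]
        intro j hj
        rcases Finset.mem_symmDiff.1 hj with ⟨hjA, _⟩ | ⟨hjB, _⟩
        · exact mem_powerset.1 hA.1 hjA
        · exact mem_powerset.1 hB.1 hjB
      · intro B _ C _ hBC
        exact symmDiff_right_injective A hBC
  rw [card_powerset, card_range] at hcount
  have hvol : (V : ℝ) ≤ 512 ^ q := volume_bound K q hK
  have h5 : (2 : ℝ) ^ K ≤ V * s.card := by exact_mod_cast hcount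
  have h6 : (2 : ℝ) ^ K ≤ 512 ^ q * s.card :=
    h5.trans (mul_le_mul_of_nonneg_right hvol (Nat.cast_nonneg _))
  have h7 : (2 : ℝ) ^ K = 512 ^ q * 2 ^ q := by
    rw [hK, pow_mul, ← mul_pow]; norm_num
  rw [h7] at h6
  have h8 : (2 : ℝ) ^ q ≤ s.card := le_of_mul_le_mul_left h6 (by positivity)
  exact_mod_cast h8

lemma entropy_pos (f : X → X) (c : ℝ) (hc : 0 < c)
    (hpair : ∀ n : ℕ, ∃ x y : X, c * n ≤ ∑ j ∈ range n, dist (f^[j] x) (f^[j] y))
    (htr : ∃ n, 1 ≤ n ∧ Traces f n (c / 40)) : 0 < Dynamics.coverEntropy f Set.univ := by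
  obtain ⟨n, hn, N, hN⟩ := htr
  obtain ⟨x, y, hxy⟩ := hpair n
  have hU : {p : X × X | dist p.1 p.2 < c / 40} ∈ uniformity X :=
    Metric.dist_mem_uniformity (by positivity)
  refine lt_of_lt_of_le ?_ (Dynamics.coverEntropyEntourage_le_coverEntropy f Set.univ hU)
  have hcard : ∀ q ≥ N, (2 ^ q : ℕ) ≤
      Dynamics.coverMincard f Set.univ {p : X × X | dist p.1 p.2 < c / 40} (n * (10 * q)) := by
    intro q hq
    refine le_iInf₂ (fun s hs => ?_)
    exact_mod_cast cover_bound f c hc n hn x y hxy q (hN (10 * q) (by omega)) s hs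
  have hnpos : (0 : ℝ) < n := by exact_mod_cast hn
  have hpos : (0 : EReal) < ((Real.log 2 / (10 * n) : ℝ) : EReal) := by
    have : 0 < Real.log 2 / (10 * n) := by
      have := Real.log_pos one_lt_two
      positivity
    exact_mod_cast this
  refine lt_of_lt_of_le hpos ?_
  refine Frequently.le_expGrowthSup ?_
  rw [frequently_atTop]
  intro M
  refine ⟨n * (10 * (M + N)), ?_, ?_⟩
  · have h1 : 1 * (10 * (M + N)) ≤ n * (10 * (M + N)) := Nat.mul_le_mul_right _ hn
    omega
  · have h1 := hcard (M + N) (by omega)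
    have h2 : ((Real.log 2 / (10 * n) : ℝ) : EReal) * ((n * (10 * (M + N)) : ℕ) : EReal) =
        (((M + N : ℕ) * Real.log 2 : ℝ) : EReal) := by
      rw [← EReal.coe_natCast, ← EReal.coe_mul]
      congr 1
      push_cast
      field_simp
    rw [h2, EReal.exp_coe, mul_comm, Real.exp_mul, Real.exp_log two_pos, Real.rpow_natCast]
    have h3 : ENNReal.ofReal ((2 : ℝ) ^ (M + N)) = (((2 ^ (M + N) : ℕ) : ℕ∞) : ENNReal) := by
      rw [ENNReal.ofReal_pow zero_le_two]
      simp
    rw [h3]
    exact ENat.toENNReal_mono h1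

end Entropy

/-- **Main theorem.** A compact system with full measure center and with the average shadowing
property, the asymptotic average shadowing property or the almost specification property is
topologically mixing or has positive topological entropy; in fact its entropy is positive unless
the space has at most one point. -/
theorem result {X : Type*} [MetricSpace X] [CompactSpace X] [MeasurableSpace X] [BorelSpace X]
    (f : X → X) (hf : Continuous f)
    (hP : AverageShadowing f ∨ AsymptoticAverageShadowing f ∨ AlmostSpecification f)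
    (hc : measureCenter f = Set.univ) :
    (TopologicallyMixing f ∨ 0 < Dynamics.coverEntropy f Set.univ) ∧
      (Nontrivial X → 0 < Dynamics.coverEntropy f Set.univ) := by
  have main : Nontrivial X → 0 < Dynamics.coverEntropy f Set.univ := by
    intro _
    obtain ⟨c, hc0, hpair⟩ := exists_pair f hf hc
    refine entropy_pos f c hc0 hpair ?_
    have hbdd := (isCompact_univ (X := X)).isBounded
    have hD0 : 0 < Metric.diam (Set.univ : Set X) + 1 := by
      have := Metric.diam_nonneg (s := (Set.univ : Set X))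
      linarith
    have hD : ∀ a b : X, dist a b ≤ Metric.diam (Set.univ : Set X) + 1 := fun a b =>
      (Metric.dist_le_diam_of_mem hbdd (Set.mem_univ a) (Set.mem_univ b)).trans (by linarith)
    rcases hP with h | h | h
    · exact traces_of_asp f h _ hD0 hD _ (by positivity)
    · exact traces_of_aasp f h _ hD0 hD _ (by positivity)
    · exact traces_of_almost f h _ hD0 hD _ (by positivity)
  refine ⟨?_, main⟩
  rcases subsingleton_or_nontrivial X with h | h
  · left
    intro U V _ _ hU hV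
    refine ⟨0, fun n _ => ?_⟩
    obtain ⟨u, hu⟩ := hU
    obtain ⟨v, hv⟩ := hV
    exact ⟨v, ⟨u, hu, Subsingleton.elim _ _⟩, hv⟩
  · exact Or.inr (main h)

end Pool.Agent.Results.MP_090ff9_an.PositiveEntropy
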